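import Mathlib

open Finset

namespace Pool.Agent.Results.MP_f9323a_an.CenteredVar

/-- sum of `a` over the interval `[n - r, n + r]` -/
noncomputable def S (a : ℤ → ℝ) (n : ℤ) (r : ℕ) : ℝ := ∑ j ∈ Icc (n - (r : ℤ)) (n + (r : ℤ)), a j

/-- number of points of the interval -/
noncomputable def w (r : ℕ) : ℝ := 2 * (r : ℝ) + 1

lemma one_le_w (r : ℕ) : 1 ≤ w r := by
  unfold w
  have : (0 : ℝ) ≤ (r : ℝ) := Nat.cast_nonneg r
  linarith

lemma w_pos (r : ℕ) : 0 < w r := lt_of_lt_of_le one_pos (one_le_w r)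

lemma w_mono {r s : ℕ} (h : r ≤ s) : w r ≤ w s := by
  unfold w
  have : (r : ℝ) ≤ (s : ℝ) := by exact_mod_cast h
  linarith

lemma card_Icc_eq (c : ℤ) (r : ℕ) : ((Icc (c - (r : ℤ)) (c + (r : ℤ))).card : ℝ) = w r := by
  rw [Int.card_Icc]
  have h : (c + (r : ℤ) + 1 - (c - (r : ℤ))).toNat = 2 * r + 1 := by omega
  rw [h]
  unfold w
  push_cast
  ring

lemma S_nonneg {a : ℤ → ℝ} (ha : ∀ n, 0 ≤ a n) (c : ℤ) (r : ℕ) : 0 ≤ S a c r :=
  Finset.sum_nonneg (fun j _ => ha j)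

lemma S_mono {a : ℤ → ℝ} (ha : ∀ n, 0 ≤ a n) {c c' : ℤ} {r s : ℕ}
    (h1 : c' - (s : ℤ) ≤ c - (r : ℤ)) (h2 : c + (r : ℤ) ≤ c' + (s : ℤ)) : S a c r ≤ S a c' s := by
  unfold S
  apply Finset.sum_le_sum_of_subset_of_nonneg
  · exact Finset.Icc_subset_Icc h1 h2
  · intro i _ _
    exact ha i

lemma rpow_diff {β : ℝ} (h0 : 0 < β) (h1 : β < 1) {x : ℝ} (hx : 1 ≤ x) :
    x ^ (β - 1) - (x + 2) ^ (β - 1) ≤ 2 * x ^ (β - 1) / x := by
  have hx0 : 0 < x := by linarith
  have hx2 : 0 < x + 2 := by linarith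
  have hy0 : 0 ≤ x / (x + 2) := by positivity
  have hy1 : x / (x + 2) ≤ 1 := by
    rw [div_le_one hx2]; linarith
  have h3 : x / (x + 2) ≤ (x / (x + 2)) ^ (1 - β) :=
    Real.self_le_rpow_of_le_one hy0 hy1 (by linarith)
  have h4 : (x / (x + 2)) ^ (1 - β) * x ^ (β - 1) = (x + 2) ^ (β - 1) := by
    rw [Real.div_rpow hx0.le hx2.le]
    have e1 : x ^ (1 - β) * x ^ (β - 1) = 1 := by
      rw [← Real.rpow_add hx0]
      have : 1 - β + (β - 1) = 0 := by ring
      rw [this, Real.rpow_zero]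
    have e2 : ((x + 2) ^ (1 - β)) * (x + 2) ^ (β - 1) = 1 := by
      rw [← Real.rpow_add hx2]
      have : 1 - β + (β - 1) = 0 := by ring
      rw [this, Real.rpow_zero]
    have hp : 0 < (x + 2) ^ (1 - β) := Real.rpow_pos_of_pos hx2 _
    field_simp
    nlinarith [e1, e2]
  have hp : 0 < x ^ (β - 1) := Real.rpow_pos_of_pos hx0 _
  have h5 : x / (x + 2) * x ^ (β - 1) ≤ (x + 2) ^ (β - 1) := by
    rw [← h4]
    exact mul_le_mul_of_nonneg_right h3 hp.le
  have h6 : 1 - 2 / x ≤ x / (x + 2) := by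
    rw [le_div_iff₀ hx2]
    have : (1 - 2 / x) * (x + 2) = x - 4 / x := by
      field_simp
      ring
    rw [this]
    have : 0 < 4 / x := by positivity
    linarith
  have h7 : (1 - 2 / x) * x ^ (β - 1) ≤ (x + 2) ^ (β - 1) :=
    le_trans (mul_le_mul_of_nonneg_right h6 hp.le) h5
  have h8 : 2 * x ^ (β - 1) / x = 2 / x * x ^ (β - 1) := by ring
  rw [h8]
  linarith

/-- One sided step: a near-optimal radius which controls the drop. -/
lemma step_one {β : ℝ} (h0 : 0 < β) (h1 : β < 1) {a : ℤ → ℝ} (ha : ∀ n, 0 ≤ a n)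
    {g : ℤ → ℝ} (hub : ∀ n r, S a n r * w r ^ (β - 1) ≤ g n)
    (hlub : ∀ n x, x < g n → ∃ r, x < S a n r * w r ^ (β - 1))
    {c c' : ℤ} (hcc : c' = c + 1 ∨ c' = c - 1) (hlt : g c' < g c) :
    ∃ r : ℕ, 0 < S a c r ∧ g c - g c' ≤ 4 * w r ^ (β - 1) * (S a c r / w r) ∧
      ∀ s : ℕ, S a c s * w s ^ (β - 1) ≤ 2 * (S a c r * w r ^ (β - 1)) := by
  obtain ⟨r, hr⟩ := hlub c ((g c + g c') / 2) (by linarith)
  have hw := w_pos r
  have hwr : 0 < w r ^ (β - 1) := Real.rpow_pos_of_pos hw _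
  have hg' : 0 ≤ g c' := by
    refine le_trans ?_ (hub c' 0)
    exact mul_nonneg (S_nonneg ha _ _) (Real.rpow_nonneg (w_pos 0).le _)
  have hS : 0 < S a c r := by
    by_contra hneg
    push Not at hneg
    have : S a c r = 0 := le_antisymm hneg (S_nonneg ha _ _)
    rw [this, zero_mul] at hr
    linarith
  refine ⟨r, hS, ?_, ?_⟩
  · have hS1 : S a c r ≤ S a c' (r + 1) := by
      apply S_mono ha
      · push_cast; rcases hcc with h | h <;> omega
      · push_cast; rcases hcc with h | h <;> omega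
    have hw1 : w (r + 1) = w r + 2 := by unfold w; push_cast; ring
    have h2 : S a c r * (w r + 2) ^ (β - 1) ≤ g c' := by
      refine le_trans ?_ (hub c' (r + 1))
      rw [hw1]
      exact mul_le_mul_of_nonneg_right hS1 (Real.rpow_nonneg (by linarith) _)
    have h3 := rpow_diff h0 h1 (one_le_w r)
    have h4 : S a c r * (w r ^ (β - 1) - (w r + 2) ^ (β - 1)) ≤ S a c r * (2 * w r ^ (β - 1) / w r) :=
      mul_le_mul_of_nonneg_left h3 hS.le
    have h5 : S a c r * (2 * w r ^ (β - 1) / w r) = 2 * w r ^ (β - 1) * (S a c r / w r) := by ring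
    rw [h5] at h4
    nlinarith [h4, h2, hr]
  · intro s
    have := hub c s
    linarith

lemma avg_decay {β : ℝ} {a : ℤ → ℝ} {c : ℤ} {r : ℕ}
    (hopt : ∀ s : ℕ, S a c s * w s ^ (β - 1) ≤ 2 * (S a c r * w r ^ (β - 1))) (s : ℕ) :
    S a c s / w s ≤ 2 * (S a c r / w r) * (w r / w s) ^ β := by
  have hr := w_pos r
  have hs := w_pos s
  have h := hopt s
  rw [Real.div_rpow hr.le hs.le]
  have e1 : w s ^ (β - 1) = w s ^ β / w s := by
    rw [Real.rpow_sub hs, Real.rpow_one]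
  have e2 : w r ^ (β - 1) = w r ^ β / w r := by
    rw [Real.rpow_sub hr, Real.rpow_one]
  rw [e1, e2] at h
  have hsb : 0 < w s ^ β := Real.rpow_pos_of_pos hs _
  have h' : S a c s / w s = S a c s * (w s ^ β / w s) / w s ^ β := by
    field_simp
  rw [h', div_le_iff₀ hsb]
  have h'' : 2 * (S a c r / w r) * (w r ^ β / w s ^ β) * w s ^ β =
      2 * (S a c r * (w r ^ β / w r)) := by
    field_simp
  rw [h'']
  exact h

lemma var_le {a : ℤ → ℝ} {x y : ℤ} (hxy : x ≤ y) :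
    |a y - a x| ≤ ∑ j ∈ Ico x y, |a (j + 1) - a j| := by
  induction y, hxy using Int.leInduction with
  | base => simp
  | succ y hy ih =>
    have hI : Ico x (y + 1) = insert y (Ico x y) := by
      ext z
      simp only [mem_Ico, mem_insert]
      omega
    rw [hI, Finset.sum_insert (by simp)]
    calc |a (y + 1) - a x| = |(a (y + 1) - a y) + (a y - a x)| := by ring_nf
      _ ≤ |a (y + 1) - a y| + |a y - a x| := abs_add_le _ _
      _ ≤ _ := by linarith

lemma var_le' {a : ℤ → ℝ} {x y p q : ℤ} (hx : x ∈ Icc p q) (hy : y ∈ Icc p q) :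
    |a y - a x| ≤ ∑ j ∈ Icc p q, |a (j + 1) - a j| := by
  rw [mem_Icc] at hx hy
  rcases le_total x y with h | h
  · refine le_trans (var_le h) ?_
    apply Finset.sum_le_sum_of_subset_of_nonneg
    · intro z hz
      rw [mem_Ico] at hz
      rw [mem_Icc]
      omega
    · intro i _ _
      exact abs_nonneg _
  · rw [abs_sub_comm]
    refine le_trans (var_le h) ?_
    apply Finset.sum_le_sum_of_subset_of_nonneg
    · intro z hz
      rw [mem_Ico] at hz
      rw [mem_Icc]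
      omega
    · intro i _ _
      exact abs_nonneg _

lemma exists_ge_avg (a : ℤ → ℝ) (c : ℤ) (r : ℕ) :
    ∃ x ∈ Icc (c - (r : ℤ)) (c + (r : ℤ)), S a c r / w r ≤ a x := by
  have hne : (Icc (c - (r : ℤ)) (c + (r : ℤ))).Nonempty := ⟨c, by rw [mem_Icc]; omega⟩
  have h : ∑ j ∈ Icc (c - (r : ℤ)) (c + (r : ℤ)), (S a c r / w r) ≤
      ∑ j ∈ Icc (c - (r : ℤ)) (c + (r : ℤ)), a j := by
    rw [Finset.sum_const, nsmul_eq_mul, card_Icc_eq]
    have := w_pos r
    rw [mul_div_cancel₀ _ this.ne']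
    exact le_rfl
  obtain ⟨x, hx, hx'⟩ := Finset.exists_le_of_sum_le hne h
  exact ⟨x, hx, hx'⟩

lemma exists_le_avg (a : ℤ → ℝ) (c : ℤ) (r : ℕ) :
    ∃ x ∈ Icc (c - (r : ℤ)) (c + (r : ℤ)), a x ≤ S a c r / w r := by
  have hne : (Icc (c - (r : ℤ)) (c + (r : ℤ))).Nonempty := ⟨c, by rw [mem_Icc]; omega⟩
  have h : ∑ j ∈ Icc (c - (r : ℤ)) (c + (r : ℤ)), a j ≤
      ∑ j ∈ Icc (c - (r : ℤ)) (c + (r : ℤ)), (S a c r / w r) := by
    rw [Finset.sum_const, nsmul_eq_mul, card_Icc_eq]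
    have := w_pos r
    rw [mul_div_cancel₀ _ this.ne']
    exact le_rfl
  obtain ⟨x, hx, hx'⟩ := Finset.exists_le_of_sum_le hne h
  exact ⟨x, hx, hx'⟩

/-- the enlarged radius -/
def enl (K r : ℕ) : ℕ := K * (2 * r + 1)

lemma enl_cast (K r : ℕ) : ((enl K r : ℕ) : ℝ) = K * w r := by
  unfold enl w
  push_cast
  ring

lemma le_enl {K : ℕ} (hK : 1 ≤ K) (r : ℕ) : r ≤ enl K r := by
  unfold enl
  nlinarith

lemma enl_mono (K : ℕ) {r s : ℕ} (h : r ≤ s) : enl K r ≤ enl K s := by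
  unfold enl
  exact Nat.mul_le_mul_left _ (by omega)

/-- Step 2: the function varies by at least half of the average in the enlarged interval. -/
lemma step_two {β : ℝ} (h0 : 0 < β) {a : ℤ → ℝ} {K : ℕ} (hK1 : 1 ≤ K)
    (hK : 4 ≤ (K : ℝ) ^ β) {c : ℤ} {r : ℕ} (hpos : 0 < S a c r)
    (hopt : ∀ s : ℕ, S a c s * w s ^ (β - 1) ≤ 2 * (S a c r * w r ^ (β - 1))) :
    (S a c r / w r) / 2 ≤
      ∑ j ∈ Icc (c - (enl K r : ℤ)) (c + (enl K r : ℤ)), |a (j + 1) - a j| := by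
  have hr := w_pos r
  have hKpos : (0 : ℝ) < K := by exact_mod_cast hK1
  obtain ⟨x, hx, hx'⟩ := exists_ge_avg a c r
  obtain ⟨y, hy, hy'⟩ := exists_le_avg a c (enl K r)
  have hx2 : x ∈ Icc (c - (enl K r : ℤ)) (c + (enl K r : ℤ)) := by
    have h := le_enl hK1 r
    have h' : (r : ℤ) ≤ (enl K r : ℤ) := by exact_mod_cast h
    rw [mem_Icc] at hx ⊢
    omega
  have hdec := avg_decay hopt (enl K r)
  have hws : K * w r ≤ w (enl K r) := by
    have : w (enl K r) = 2 * (K * w r) + 1 := by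
      rw [← enl_cast]; rfl
    rw [this]
    have : 0 < K * w r := by positivity
    linarith
  have hratio : (w r / w (enl K r)) ^ β ≤ 1 / 4 := by
    have h1 : w r / w (enl K r) ≤ 1 / K := by
      rw [div_le_div_iff₀ (w_pos _) hKpos]
      linarith
    calc (w r / w (enl K r)) ^ β ≤ (1 / (K : ℝ)) ^ β := by
          apply Real.rpow_le_rpow _ h1 h0.le
          exact div_nonneg hr.le (w_pos _).le
      _ = 1 / (K : ℝ) ^ β := by rw [Real.div_rpow (by norm_num) hKpos.le, Real.one_rpow]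
      _ ≤ 1 / 4 := one_div_le_one_div_of_le (by norm_num) hK
  have hL : 0 < S a c r / w r := div_pos hpos hr
  have hlow : S a c (enl K r) / w (enl K r) ≤ (S a c r / w r) / 2 := by
    refine le_trans hdec ?_
    nlinarith
  have hv := var_le' (a := a) hy hx2
  have : (S a c r / w r) / 2 ≤ |a x - a y| := by
    refine le_trans ?_ (le_abs_self _)
    linarith
  linarith

/-- Step 3: comparability of radii at the same level. -/
lemma step_three {β : ℝ} (h0 : 0 < β) {a : ℤ → ℝ} (ha : ∀ n, 0 ≤ a n) {K : ℕ} (hK1 : 1 ≤ K)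
    {c c' : ℤ} {r r' : ℕ} (hpos : 0 < S a c r)
    (hopt' : ∀ s : ℕ, S a c' s * w s ^ (β - 1) ≤ 2 * (S a c' r' * w r' ^ (β - 1)))
    (hlev : S a c' r' / w r' ≤ 2 * (S a c r / w r)) (hrr : r' ≤ r) {j : ℤ}
    (hj : j ∈ Icc (c - (enl K r : ℤ)) (c + (enl K r : ℤ)))
    (hj' : j ∈ Icc (c' - (enl K r' : ℤ)) (c' + (enl K r' : ℤ))) :
    w r ≤ (28 * K : ℝ) ^ (1 / β) * w r' := by
  have hr := w_pos r
  have hr' := w_pos r'
  have hKpos : (0 : ℝ) < K := by exact_mod_cast hK1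
  have hK1' : (1 : ℝ) ≤ K := by exact_mod_cast hK1
  set t : ℕ := 3 * enl K r with ht
  have hen : enl K r' ≤ enl K r := enl_mono K hrr
  have hre : r ≤ enl K r := le_enl hK1 r
  have hS : S a c r ≤ S a c' t := by
    rw [mem_Icc] at hj hj'
    have h1 : (enl K r' : ℤ) ≤ (enl K r : ℤ) := by exact_mod_cast hen
    have h2 : (r : ℤ) ≤ (enl K r : ℤ) := by exact_mod_cast hre
    have h3 : (t : ℤ) = 3 * (enl K r : ℤ) := by rw [ht]; push_cast; ring
    apply S_mono ha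
    · rw [h3]; omega
    · rw [h3]; omega
  have hdec := avg_decay hopt' t
  have hwt : w t ≤ 7 * K * w r := by
    have e1 : w t = 2 * (3 * (K * w r)) + 1 := by
      unfold w at *
      rw [ht]
      push_cast
      rw [enl_cast]
      unfold w
      ring
    rw [e1]
    have h1 : 1 ≤ K * w r := by
      have := one_le_w r
      nlinarith
    linarith
  have hwtr : w r ≤ w t := by
    apply w_mono
    rw [ht]; omega
  have hwtpos := w_pos t
  have hL : 0 < S a c r / w r := div_pos hpos hr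
  have hρ : (w r' / w t) ^ β ≤ (w r' / w r) ^ β := by
    apply Real.rpow_le_rpow (by positivity) _ h0.le
    exact div_le_div_of_nonneg_left hr'.le hr hwtr
  have hρpos : 0 ≤ (w r' / w r) ^ β := Real.rpow_nonneg (by positivity) _
  -- w r * L ≤ w t * (4 L ρ)
  have key : 1 ≤ 28 * K * (w r' / w r) ^ β := by
    have e1 : S a c r = w r * (S a c r / w r) := by field_simp
    have e2 : S a c' t = w t * (S a c' t / w t) := by field_simp
    have h1 : w r * (S a c r / w r) ≤ w t * (2 * (S a c' r' / w r') * (w r' / w t) ^ β) := by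
      rw [← e1]
      refine le_trans hS ?_
      rw [e2]
      exact mul_le_mul_of_nonneg_left hdec hwtpos.le
    have h2 : 2 * (S a c' r' / w r') * (w r' / w t) ^ β ≤
        4 * (S a c r / w r) * (w r' / w r) ^ β := by
      have h3 : 0 ≤ S a c' r' / w r' := div_nonneg (S_nonneg ha _ _) hr'.le
      have h4 : 2 * (S a c' r' / w r') ≤ 4 * (S a c r / w r) := by linarith
      exact mul_le_mul h4 hρ (Real.rpow_nonneg (by positivity) _) (by positivity)
    have h5 : w r * (S a c r / w r) ≤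
        (7 * K * w r) * (4 * (S a c r / w r) * (w r' / w r) ^ β) := by
      refine le_trans h1 ?_
      refine mul_le_mul hwt h2 ?_ (by positivity)
      have h3 : 0 ≤ S a c' r' / w r' := div_nonneg (S_nonneg ha _ _) hr'.le
      have : 0 ≤ (w r' / w t) ^ β := Real.rpow_nonneg (by positivity) _
      positivity
    have h6 : 0 < w r * (S a c r / w r) := by positivity
    have h7 : (7 * K * w r) * (4 * (S a c r / w r) * (w r' / w r) ^ β) =
        (w r * (S a c r / w r)) * (28 * K * (w r' / w r) ^ β) := by ring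
    rw [h7] at h5
    by_contra hcon
    push Not at hcon
    nlinarith
  have h28 : (0 : ℝ) < 28 * K := by positivity
  have key2 : w r / w r' ≤ (28 * K : ℝ) ^ (1 / β) := by
    have h1 : (w r / w r') ^ β ≤ 28 * K := by
      have e : (w r' / w r) ^ β = ((w r / w r') ^ β)⁻¹ := by
        rw [← Real.inv_rpow (by positivity), inv_div]
      rw [e] at key
      have hp : 0 < (w r / w r') ^ β := Real.rpow_pos_of_pos (by positivity) _
      rw [← div_eq_mul_inv, le_div_iff₀ hp, one_mul] at key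
      exact key
    have h2 : ((w r / w r') ^ β) ^ (1 / β) ≤ (28 * K : ℝ) ^ (1 / β) :=
      Real.rpow_le_rpow (Real.rpow_nonneg (by positivity) _) h1 (by positivity)
    rwa [← Real.rpow_mul (by positivity), mul_one_div_cancel h0.ne', Real.rpow_one] at h2
  rwa [div_le_iff₀ hr'] at key2

/-- Step 4: for a fixed point `j`, the sum of `1 / w` over the indices of one level whose enlarged
interval contains `j` is bounded. -/
lemma step_four {β : ℝ} (h0 : 0 < β) {a : ℤ → ℝ} (ha : ∀ n, 0 ≤ a n) {K : ℕ} (hK1 : 1 ≤ K)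
    (F : Finset ℤ) (c : ℤ → ℤ) (r : ℤ → ℕ)
    (hc : ∀ n ∈ F, |c n - n| ≤ 1) (hpos : ∀ n ∈ F, 0 < S a (c n) (r n))
    (hopt : ∀ n ∈ F, ∀ s : ℕ, S a (c n) s * w s ^ (β - 1) ≤
      2 * (S a (c n) (r n) * w (r n) ^ (β - 1)))
    (hlev : ∀ n ∈ F, ∀ m ∈ F, S a (c m) (r m) / w (r m) ≤ 2 * (S a (c n) (r n) / w (r n)))
    (j : ℤ) :
    ∑ n ∈ F with j ∈ Icc (c n - (enl K (r n) : ℤ)) (c n + (enl K (r n) : ℤ)), 1 / w (r n) ≤
      5 * K * (28 * K : ℝ) ^ (1 / β) := by
  have hKpos : (0 : ℝ) < K := by exact_mod_cast hK1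
  have hK1' : (1 : ℝ) ≤ K := by exact_mod_cast hK1
  have hK'pos : 0 < (28 * K : ℝ) ^ (1 / β) := Real.rpow_pos_of_pos (by positivity) _
  set G := F.filter (fun n => j ∈ Icc (c n - (enl K (r n) : ℤ)) (c n + (enl K (r n) : ℤ))) with hG
  rcases G.eq_empty_or_nonempty with hemp | hne
  · rw [hemp, Finset.sum_empty]
    positivity
  · obtain ⟨n₀, hn₀, hmax⟩ := Finset.exists_max_image G r hne
    have hn₀' := (Finset.mem_filter.mp hn₀)
    have hw0 := w_pos (r n₀)
    have hw1 := one_le_w (r n₀)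
    have hterm : ∀ n ∈ G, 1 / w (r n) ≤ (28 * K : ℝ) ^ (1 / β) / w (r n₀) := by
      intro n hn
      have hn' := (Finset.mem_filter.mp hn)
      have h := step_three h0 ha hK1 (hpos n₀ hn₀'.1) (hopt n hn'.1)
        (hlev n₀ hn₀'.1 n hn'.1) (hmax n hn) hn₀'.2 hn'.2
      rw [div_le_div_iff₀ (w_pos _) hw0]
      linarith
    have hcard : (G.card : ℝ) ≤ 5 * K * w (r n₀) := by
      have hsub : G ⊆ Icc (j - ((enl K (r n₀) + 1 : ℕ) : ℤ)) (j + ((enl K (r n₀) + 1 : ℕ) : ℤ)) := by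
        intro n hn
        have hn' := (Finset.mem_filter.mp hn)
        have h1 := hc n hn'.1
        have h2 := hn'.2
        have h3 : (enl K (r n) : ℤ) ≤ (enl K (r n₀) : ℤ) := by
          exact_mod_cast enl_mono K (hmax n hn)
        rw [abs_le] at h1
        rw [mem_Icc] at h2 ⊢
        push_cast
        omega
      have h1 : (G.card : ℝ) ≤
          ((Icc (j - ((enl K (r n₀) + 1 : ℕ) : ℤ)) (j + ((enl K (r n₀) + 1 : ℕ) : ℤ))).card : ℝ) := by
        exact_mod_cast Finset.card_le_card hsub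
      rw [card_Icc_eq] at h1
      have h2 : w (enl K (r n₀) + 1) = 2 * (K * w (r n₀)) + 3 := by
        rw [← enl_cast]
        unfold w
        push_cast
        ring
      rw [h2] at h1
      have h3 : 1 ≤ K * w (r n₀) := by nlinarith
      linarith
    calc ∑ n ∈ G, 1 / w (r n) ≤ ∑ n ∈ G, (28 * K : ℝ) ^ (1 / β) / w (r n₀) :=
          Finset.sum_le_sum hterm
      _ = G.card * ((28 * K : ℝ) ^ (1 / β) / w (r n₀)) := by rw [Finset.sum_const, nsmul_eq_mul]
      _ ≤ (5 * K * w (r n₀)) * ((28 * K : ℝ) ^ (1 / β) / w (r n₀)) :=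
          mul_le_mul_of_nonneg_right hcard (by positivity)
      _ = 5 * K * (28 * K : ℝ) ^ (1 / β) := by field_simp

/-- Step 5: the sum over one level. -/
lemma step_five {β : ℝ} (h0 : 0 < β) {a : ℤ → ℝ} (ha : ∀ n, 0 ≤ a n) {K : ℕ} (hK1 : 1 ≤ K)
    (hK : 4 ≤ (K : ℝ) ^ β) {V : ℝ}
    (hV : ∀ G : Finset ℤ, ∑ j ∈ G, |a (j + 1) - a j| ≤ V)
    (F : Finset ℤ) (c : ℤ → ℤ) (r : ℤ → ℕ)
    (hc : ∀ n ∈ F, |c n - n| ≤ 1) (hpos : ∀ n ∈ F, 0 < S a (c n) (r n))
    (hopt : ∀ n ∈ F, ∀ s : ℕ, S a (c n) s * w s ^ (β - 1) ≤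
      2 * (S a (c n) (r n) * w (r n) ^ (β - 1)))
    (hlev : ∀ n ∈ F, ∀ m ∈ F, S a (c m) (r m) / w (r m) ≤ 2 * (S a (c n) (r n) / w (r n))) :
    ∑ n ∈ F, (S a (c n) (r n) / w (r n)) / w (r n) ≤
      2 * (5 * K * (28 * K : ℝ) ^ (1 / β)) * V := by
  have hKpos : (0 : ℝ) < K := by exact_mod_cast hK1
  have hK'pos : 0 < (28 * K : ℝ) ^ (1 / β) := Real.rpow_pos_of_pos (by positivity) _
  set C1 : ℝ := 5 * K * (28 * K : ℝ) ^ (1 / β) with hC1
  have hC1pos : 0 < C1 := by positivity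
  let J : ℤ → Finset ℤ := fun n => Icc (c n - (enl K (r n) : ℤ)) (c n + (enl K (r n) : ℤ))
  let U : Finset ℤ := F.biUnion J
  have hstep : ∀ n ∈ F, (S a (c n) (r n) / w (r n)) / w (r n) ≤
      2 * ∑ j ∈ J n, |a (j + 1) - a j| * (1 / w (r n)) := by
    intro n hn
    have h2 := step_two h0 hK1 hK (hpos n hn) (hopt n hn)
    rw [← Finset.sum_mul]
    have hw := w_pos (r n)
    rw [div_le_iff₀ hw]
    have e : 2 * ((∑ j ∈ J n, |a (j + 1) - a j|) * (1 / w (r n))) * w (r n) =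
        2 * (∑ j ∈ J n, |a (j + 1) - a j|) := by
      field_simp
    rw [e]
    linarith
  calc ∑ n ∈ F, (S a (c n) (r n) / w (r n)) / w (r n)
      ≤ ∑ n ∈ F, 2 * ∑ j ∈ J n, |a (j + 1) - a j| * (1 / w (r n)) := Finset.sum_le_sum hstep
    _ = 2 * ∑ n ∈ F, ∑ j ∈ J n, |a (j + 1) - a j| * (1 / w (r n)) := by rw [Finset.mul_sum]
    _ = 2 * ∑ j ∈ U, ∑ n ∈ F with j ∈ J n, |a (j + 1) - a j| * (1 / w (r n)) := by
        congr 1
        apply Finset.sum_comm'
        intro n j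
        simp only [Finset.mem_filter, U, Finset.mem_biUnion]
        constructor
        · rintro ⟨h1, h2⟩
          exact ⟨⟨h1, h2⟩, ⟨n, h1, h2⟩⟩
        · rintro ⟨⟨h1, h2⟩, _⟩
          exact ⟨h1, h2⟩
    _ = 2 * ∑ j ∈ U, |a (j + 1) - a j| * ∑ n ∈ F with j ∈ J n, (1 / w (r n)) := by
        congr 1
        apply Finset.sum_congr rfl
        intro j _
        rw [Finset.mul_sum]
    _ ≤ 2 * ∑ j ∈ U, |a (j + 1) - a j| * C1 := by
        apply mul_le_mul_of_nonneg_left _ (by norm_num)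
        apply Finset.sum_le_sum
        intro j _
        apply mul_le_mul_of_nonneg_left _ (abs_nonneg _)
        exact step_four h0 ha hK1 F c r hc hpos hopt hlev j
    _ = 2 * C1 * ∑ j ∈ U, |a (j + 1) - a j| := by
        rw [← Finset.sum_mul]; ring
    _ ≤ 2 * C1 * V := mul_le_mul_of_nonneg_left (hV U) (by positivity)

/-- Step 6: summing the levels. -/
lemma step_six {β q : ℝ} (h0 : 0 < β) (hq : 1 < q) {a : ℤ → ℝ}
    (ha : ∀ n, 0 ≤ a n) {K : ℕ} (hK1 : 1 ≤ K)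
    (hK : 4 ≤ (K : ℝ) ^ β) {V : ℝ} (hVpos : 0 < V)
    (hV : ∀ G : Finset ℤ, ∑ j ∈ G, |a (j + 1) - a j| ≤ V)
    (F : Finset ℤ) (c : ℤ → ℤ) (r : ℤ → ℕ)
    (hc : ∀ n ∈ F, |c n - n| ≤ 1) (hpos : ∀ n ∈ F, 0 < S a (c n) (r n))
    (hopt : ∀ n ∈ F, ∀ s : ℕ, S a (c n) s * w s ^ (β - 1) ≤
      2 * (S a (c n) (r n) * w (r n) ^ (β - 1))) :
    ∑ n ∈ F, (S a (c n) (r n) / w (r n)) ^ q / w (r n) ≤
      (2 * (5 * K * (28 * K : ℝ) ^ (1 / β))) * (2 ^ (q - 1) / (1 - (1 / 2 : ℝ) ^ (q - 1))) *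
        V ^ q := by
  have hKpos : (0 : ℝ) < K := by exact_mod_cast hK1
  have hK'pos : 0 < (28 * K : ℝ) ^ (1 / β) := Real.rpow_pos_of_pos (by positivity) _
  set C2 : ℝ := 2 * (5 * K * (28 * K : ℝ) ^ (1 / β)) with hC2
  have hC2pos : 0 < C2 := by positivity
  set L : ℤ → ℝ := fun n => S a (c n) (r n) / w (r n) with hL
  have hLpos : ∀ n ∈ F, 0 < L n := fun n hn => div_pos (hpos n hn) (w_pos _)
  have hLle : ∀ n ∈ F, L n ≤ 2 * V := by
    intro n hn
    have h2 := step_two h0 hK1 hK (hpos n hn) (hopt n hn)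
    have h3 := hV (Icc (c n - (enl K (r n) : ℤ)) (c n + (enl K (r n) : ℤ)))
    have : L n / 2 ≤ V := le_trans h2 h3
    linarith
  -- the level of an index
  have hex : ∀ n ∈ F, ∃ m : ℕ, 2 * V * (1 / 2 : ℝ) ^ (m + 1) < L n ∧ L n ≤ 2 * V * (1 / 2 : ℝ) ^ m := by
    intro n hn
    have hex1 : ∃ m : ℕ, 2 * V * (1 / 2 : ℝ) ^ (m + 1) < L n := by
      obtain ⟨m, hm⟩ := exists_pow_lt_of_lt_one (div_pos (hLpos n hn) (by positivity : 0 < 2 * V))
        (by norm_num : (1 / 2 : ℝ) < 1)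
      refine ⟨m, ?_⟩
      rw [lt_div_iff₀ (by positivity)] at hm
      have hp : 0 < (1 / 2 : ℝ) ^ m := by positivity
      calc 2 * V * (1 / 2 : ℝ) ^ (m + 1) = (1 / 2 : ℝ) ^ m * (2 * V) / 2 := by ring
        _ < L n := by nlinarith [hLpos n hn]
    classical
    refine ⟨Nat.find hex1, Nat.find_spec hex1, ?_⟩
    rcases Nat.eq_zero_or_pos (Nat.find hex1) with h | h
    · rw [h, pow_zero, mul_one]
      exact hLle n hn
    · have hlt : Nat.find hex1 - 1 < Nat.find hex1 := Nat.sub_lt h one_pos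
      have := Nat.find_min hex1 hlt
      push Not at this
      have e : Nat.find hex1 - 1 + 1 = Nat.find hex1 := Nat.sub_add_cancel h
      rw [e] at this
      exact this
  choose! lev hlev1 hlev2 using hex
  set ρ : ℝ := (1 / 2 : ℝ) ^ (q - 1) with hρ
  have hρ0 : 0 ≤ ρ := Real.rpow_nonneg (by norm_num) _
  have hρ1 : ρ < 1 := Real.rpow_lt_one (by norm_num) (by norm_num) (by linarith)
  have hfib : ∀ m : ℕ, ∑ n ∈ F with lev n = m, (L n) ^ q / w (r n) ≤
      ((2 * V) ^ (q - 1) * (C2 * V)) * ρ ^ m := by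
    intro m
    have hsub : ∀ n ∈ F.filter (fun n => lev n = m), n ∈ F := fun n hn => (Finset.mem_filter.mp hn).1
    have hm5 := step_five h0 ha hK1 hK hV (F.filter (fun n => lev n = m)) c r
      (fun n hn => hc n (hsub n hn)) (fun n hn => hpos n (hsub n hn))
      (fun n hn => hopt n (hsub n hn))
      (by
        intro n hn n' hn'
        have e1 := (Finset.mem_filter.mp hn)
        have e2 := (Finset.mem_filter.mp hn')
        have l1 := hlev1 n e1.1
        have l2 := hlev2 n' e2.1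
        rw [e1.2] at l1
        rw [e2.2] at l2
        have : (1 / 2 : ℝ) ^ (m + 1) = (1 / 2 : ℝ) ^ m / 2 := by ring
        rw [this] at l1
        show L n' ≤ 2 * L n
        linarith)
    have hterm : ∀ n ∈ F.filter (fun n => lev n = m), (L n) ^ q / w (r n) ≤
        ((2 * V) ^ (q - 1) * ρ ^ m) * (L n / w (r n)) := by
      intro n hn
      have e1 := (Finset.mem_filter.mp hn)
      have hLn := hLpos n e1.1
      have l2 := hlev2 n e1.1
      rw [e1.2] at l2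
      have hw := w_pos (r n)
      have h3 : (L n) ^ (q - 1) ≤ (2 * V) ^ (q - 1) * ρ ^ m := by
        calc (L n) ^ (q - 1) ≤ (2 * V * (1 / 2 : ℝ) ^ m) ^ (q - 1) :=
              Real.rpow_le_rpow hLn.le l2 (by linarith)
          _ = (2 * V) ^ (q - 1) * ((1 / 2 : ℝ) ^ m) ^ (q - 1) :=
              Real.mul_rpow (by positivity) (by positivity)
          _ = (2 * V) ^ (q - 1) * ρ ^ m := by
              congr 1
              rw [hρ, ← Real.rpow_natCast, ← Real.rpow_natCast, ← Real.rpow_mul (by norm_num),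
                ← Real.rpow_mul (by norm_num), mul_comm]
      have h4 : (L n) ^ q = (L n) ^ (q - 1) * L n := by
        rw [← Real.rpow_add_one hLn.ne']
        congr 1
        ring
      rw [h4, mul_div_assoc]
      exact mul_le_mul_of_nonneg_right h3 (by positivity)
    calc ∑ n ∈ F with lev n = m, (L n) ^ q / w (r n)
        ≤ ∑ n ∈ F with lev n = m, ((2 * V) ^ (q - 1) * ρ ^ m) * (L n / w (r n)) :=
          Finset.sum_le_sum hterm
      _ = ((2 * V) ^ (q - 1) * ρ ^ m) * ∑ n ∈ F with lev n = m, (L n / w (r n)) := by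
          rw [Finset.mul_sum]
      _ ≤ ((2 * V) ^ (q - 1) * ρ ^ m) * (C2 * V) :=
          mul_le_mul_of_nonneg_left hm5 (by positivity)
      _ = ((2 * V) ^ (q - 1) * (C2 * V)) * ρ ^ m := by ring
  have hmaps : ∀ n ∈ F, lev n ∈ F.image lev := fun n hn => Finset.mem_image_of_mem _ hn
  calc ∑ n ∈ F, (L n) ^ q / w (r n)
      = ∑ m ∈ F.image lev, ∑ n ∈ F with lev n = m, (L n) ^ q / w (r n) :=
        (Finset.sum_fiberwise_of_maps_to hmaps _).symm
    _ ≤ ∑ m ∈ F.image lev, ((2 * V) ^ (q - 1) * (C2 * V)) * ρ ^ m :=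
        Finset.sum_le_sum (fun m _ => hfib m)
    _ = ((2 * V) ^ (q - 1) * (C2 * V)) * ∑ m ∈ F.image lev, ρ ^ m := by rw [Finset.mul_sum]
    _ ≤ ((2 * V) ^ (q - 1) * (C2 * V)) * (1 - ρ)⁻¹ := by
        apply mul_le_mul_of_nonneg_left _ (by positivity)
        rw [← tsum_geometric_of_lt_one hρ0 hρ1]
        exact (summable_geometric_of_lt_one hρ0 hρ1).sum_le_tsum _ (fun i _ => by positivity)
    _ = C2 * (2 ^ (q - 1) / (1 - ρ)) * V ^ q := by
        rw [Real.mul_rpow (by norm_num) hVpos.le]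
        have : V ^ q = V ^ (q - 1) * V := by
          rw [← Real.rpow_add_one hVpos.ne']
          congr 1
          ring
        rw [this]
        ring

/-- The real-variable core: a bound for all finite partial sums of the `q`-variation. -/
lemma core {β q : ℝ} (h0 : 0 < β) (h1 : β < 1) (hq : q = 1 / (1 - β)) {a : ℤ → ℝ}
    (ha : ∀ n, 0 ≤ a n) {K : ℕ} (hK1 : 1 ≤ K) (hK : 4 ≤ (K : ℝ) ^ β)
    {g : ℤ → ℝ} (hub : ∀ n r, S a n r * w r ^ (β - 1) ≤ g n)
    (hlub : ∀ n x, x < g n → ∃ r, x < S a n r * w r ^ (β - 1))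
    {V : ℝ} (hV0 : 0 ≤ V) (hV : ∀ G : Finset ℤ, ∑ j ∈ G, |a (j + 1) - a j| ≤ V)
    (F : Finset ℤ) :
    ∑ n ∈ F, |g (n + 1) - g n| ^ q ≤
      (4 ^ q * ((2 * (5 * K * (28 * K : ℝ) ^ (1 / β))) *
        (2 ^ (q - 1) / (1 - (1 / 2 : ℝ) ^ (q - 1))))) * V ^ q := by
  have h1β : 0 < 1 - β := by linarith
  have hq1 : 1 < q := by
    rw [hq, lt_div_iff₀ h1β]; linarith
  have hq0 : 0 < q := by linarith
  have hsel : ∀ n, g (n + 1) ≠ g n → ∃ c : ℤ, ∃ r : ℕ, |c - n| ≤ 1 ∧ 0 < S a c r ∧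
      |g (n + 1) - g n| ≤ 4 * w r ^ (β - 1) * (S a c r / w r) ∧
      ∀ s : ℕ, S a c s * w s ^ (β - 1) ≤ 2 * (S a c r * w r ^ (β - 1)) := by
    intro n hn
    rcases lt_or_gt_of_ne hn with h | h
    · obtain ⟨r, hr1, hr2, hr3⟩ := step_one h0 h1 ha hub hlub (c := n) (c' := n + 1)
        (Or.inl rfl) h
      refine ⟨n, r, by simp, hr1, ?_, hr3⟩
      rw [abs_sub_comm, abs_of_pos (by linarith)]
      exact hr2
    · obtain ⟨r, hr1, hr2, hr3⟩ := step_one h0 h1 ha hub hlub (c := n + 1) (c' := n)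
        (Or.inr (by ring)) h
      refine ⟨n + 1, r, by simp, hr1, ?_, hr3⟩
      rw [abs_of_pos (by linarith)]
      exact hr2
  choose! c r hc hpos hD hopt using hsel
  set F' := F.filter (fun n => g (n + 1) ≠ g n) with hF'
  have hF'mem : ∀ n ∈ F', g (n + 1) ≠ g n := fun n hn => (Finset.mem_filter.mp hn).2
  have hsum1 : ∑ n ∈ F, |g (n + 1) - g n| ^ q = ∑ n ∈ F', |g (n + 1) - g n| ^ q := by
    symm
    apply Finset.sum_subset (Finset.filter_subset _ _)
    intro n hn hn'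
    have : g (n + 1) = g n := by
      by_contra hne
      exact hn' (Finset.mem_filter.mpr ⟨hn, hne⟩)
    rw [this, sub_self, abs_zero, Real.zero_rpow hq0.ne']
  rw [hsum1]
  rcases hV0.eq_or_lt with hVz | hVpos
  · -- zero variation
    have hemp : F' = ∅ := by
      rw [Finset.eq_empty_iff_forall_notMem]
      intro n hn
      have hne := hF'mem n hn
      have h2 := step_two h0 hK1 hK (hpos n hne) (hopt n hne)
      have h3 := hV (Icc (c n - (enl K (r n) : ℤ)) (c n + (enl K (r n) : ℤ)))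
      have h4 := div_pos (hpos n hne) (w_pos (r n))
      linarith
    rw [hemp, Finset.sum_empty, ← hVz, Real.zero_rpow hq0.ne', mul_zero]
  · have hterm : ∀ n ∈ F', |g (n + 1) - g n| ^ q ≤
        4 ^ q * ((S a (c n) (r n) / w (r n)) ^ q / w (r n)) := by
      intro n hn
      have hne := hF'mem n hn
      have hw := w_pos (r n)
      have hL := div_pos (hpos n hne) hw
      have hwp : 0 < w (r n) ^ (β - 1) := Real.rpow_pos_of_pos hw _
      calc |g (n + 1) - g n| ^ q ≤ (4 * w (r n) ^ (β - 1) * (S a (c n) (r n) / w (r n))) ^ q :=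
            Real.rpow_le_rpow (abs_nonneg _) (hD n hne) hq0.le
        _ = 4 ^ q * (w (r n) ^ (β - 1)) ^ q * (S a (c n) (r n) / w (r n)) ^ q := by
            rw [Real.mul_rpow (by positivity) hL.le, Real.mul_rpow (by norm_num) hwp.le]
        _ = 4 ^ q * ((S a (c n) (r n) / w (r n)) ^ q / w (r n)) := by
            have e : (w (r n) ^ (β - 1)) ^ q = (w (r n))⁻¹ := by
              rw [← Real.rpow_mul hw.le]
              have : (β - 1) * q = -1 := by
                rw [hq]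
                field_simp
                ring
              rw [this, Real.rpow_neg_one]
            rw [e]
            ring
    have h6 := step_six h0 hq1 ha hK1 hK hVpos hV F' c r
      (fun n hn => hc n (hF'mem n hn)) (fun n hn => hpos n (hF'mem n hn))
      (fun n hn => hopt n (hF'mem n hn))
    calc ∑ n ∈ F', |g (n + 1) - g n| ^ q
        ≤ ∑ n ∈ F', 4 ^ q * ((S a (c n) (r n) / w (r n)) ^ q / w (r n)) :=
          Finset.sum_le_sum hterm
      _ = 4 ^ q * ∑ n ∈ F', ((S a (c n) (r n) / w (r n)) ^ q / w (r n)) := by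
          rw [Finset.mul_sum]
      _ ≤ 4 ^ q * (((2 * (5 * K * (28 * K : ℝ) ^ (1 / β))) *
            (2 ^ (q - 1) / (1 - (1 / 2 : ℝ) ^ (q - 1)))) * V ^ q) :=
          mul_le_mul_of_nonneg_left h6 (by positivity)
      _ = _ := by ring

/-! ### The objects of the problem -/

/-- The total variation of a function on the integers, with values in `[0, ∞]`. -/
noncomputable def totalVar (f : ℤ → ℝ) : ENNReal := ∑' n : ℤ, ENNReal.ofReal |f (n + 1) - f n|

/-- The `q`-variation of a function on the integers, with values in `[0, ∞]`. -/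
noncomputable def qVar (q : ℝ) (g : ℤ → ℝ) : ENNReal :=
  (∑' n : ℤ, ENNReal.ofReal |g (n + 1) - g n| ^ q) ^ (1 / q)

/-- The discrete centered fractional maximal function, with values in `[0, ∞]`:
the supremum over all integers `r ≥ 0` of `(2 r + 1) ^ (-(1 - β))` times the sum of `|f (n + k)|`
over `-r ≤ k ≤ r`. -/
noncomputable def fracMax (β : ℝ) (f : ℤ → ℝ) (n : ℤ) : ENNReal :=
  ⨆ r : ℕ, ENNReal.ofReal
    ((∑ k ∈ Finset.Icc (-(r : ℤ)) (r : ℤ), |f (n + k)|) / (2 * (r : ℝ) + 1) ^ (1 - β))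

lemma sum_shift (f : ℤ → ℝ) (n : ℤ) (r : ℕ) :
    ∑ k ∈ Finset.Icc (-(r : ℤ)) (r : ℤ), |f (n + k)| = S (fun j => |f j|) n r := by
  unfold S
  apply Finset.sum_bij (fun k _ => n + k)
  · intro k hk
    rw [Finset.mem_Icc] at hk ⊢
    omega
  · intro k _ k' _ h
    simpa using h
  · intro j hj
    rw [Finset.mem_Icc] at hj
    exact ⟨j - n, by rw [Finset.mem_Icc]; omega, by ring⟩
  · intro k _
    rfl

lemma fracMax_eq (β : ℝ) (f : ℤ → ℝ) (n : ℤ) :
    fracMax β f n = ⨆ r : ℕ, ENNReal.ofReal (S (fun j => |f j|) n r * w r ^ (β - 1)) := by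
  unfold fracMax
  congr 1
  ext r
  rw [sum_shift]
  have hw : (2 * (r : ℝ) + 1) = w r := rfl
  rw [hw]
  have : w r ^ (β - 1) = (w r ^ (1 - β))⁻¹ := by
    rw [← Real.rpow_neg (w_pos r).le]
    congr 1
    ring
  rw [this, div_eq_mul_inv]

lemma fracMax_finite {β : ℝ} (h1 : β < 1) {f : ℤ → ℝ} {n₀ : ℤ}
    (hfin : fracMax β f n₀ ≠ ⊤) (n : ℤ) : fracMax β f n ≠ ⊤ := by
  rw [fracMax_eq] at hfin ⊢
  set a : ℤ → ℝ := fun j => |f j| with hadef
  have ha : ∀ n, 0 ≤ a n := fun n => abs_nonneg _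
  set d : ℕ := (n - n₀).natAbs with hd
  set M : ENNReal := ⨆ r : ℕ, ENNReal.ofReal (S a n₀ r * w r ^ (β - 1)) with hM
  have hbound : ∀ r : ℕ, ENNReal.ofReal (S a n r * w r ^ (β - 1)) ≤
      M * ENNReal.ofReal ((1 + 2 * (d : ℝ)) ^ (1 - β)) := by
    intro r
    have h2 : S a n r ≤ S a n₀ (r + d) := by
      apply S_mono ha
      · push_cast; omega
      · push_cast; omega
    have hwr := w_pos r
    have hwrd := w_pos (r + d)
    have h3 : w r ^ (β - 1) ≤ w (r + d) ^ (β - 1) * (1 + 2 * (d : ℝ)) ^ (1 - β) := by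
      have h4 : w (r + d) ≤ w r * (1 + 2 * (d : ℝ)) := by
        unfold w
        push_cast
        have hr0 : (0 : ℝ) ≤ r := Nat.cast_nonneg r
        have hd0 : (0 : ℝ) ≤ d := Nat.cast_nonneg d
        nlinarith
      have h5 : w (r + d) ^ (1 - β) ≤ w r ^ (1 - β) * (1 + 2 * (d : ℝ)) ^ (1 - β) := by
        rw [← Real.mul_rpow hwr.le (by positivity)]
        exact Real.rpow_le_rpow hwrd.le h4 (by linarith)
      have e1 : w r ^ (β - 1) = (w r ^ (1 - β))⁻¹ := by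
        rw [← Real.rpow_neg hwr.le]; congr 1; ring
      have e2 : w (r + d) ^ (β - 1) = (w (r + d) ^ (1 - β))⁻¹ := by
        rw [← Real.rpow_neg hwrd.le]; congr 1; ring
      rw [e1, e2]
      have p1 : 0 < w r ^ (1 - β) := Real.rpow_pos_of_pos hwr _
      have p2 : 0 < w (r + d) ^ (1 - β) := Real.rpow_pos_of_pos hwrd _
      rw [inv_mul_eq_div, le_div_iff₀ p2, inv_mul_le_iff₀ p1]
      exact h5
    have h6 : S a n r * w r ^ (β - 1) ≤
        (S a n₀ (r + d) * w (r + d) ^ (β - 1)) * (1 + 2 * (d : ℝ)) ^ (1 - β) := by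
      calc S a n r * w r ^ (β - 1) ≤ S a n₀ (r + d) *
            (w (r + d) ^ (β - 1) * (1 + 2 * (d : ℝ)) ^ (1 - β)) := by
            apply mul_le_mul h2 h3 (Real.rpow_nonneg hwr.le _) (S_nonneg ha _ _)
        _ = _ := by ring
    calc ENNReal.ofReal (S a n r * w r ^ (β - 1))
        ≤ ENNReal.ofReal ((S a n₀ (r + d) * w (r + d) ^ (β - 1)) * (1 + 2 * (d : ℝ)) ^ (1 - β)) :=
          ENNReal.ofReal_le_ofReal h6
      _ = ENNReal.ofReal (S a n₀ (r + d) * w (r + d) ^ (β - 1)) *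
            ENNReal.ofReal ((1 + 2 * (d : ℝ)) ^ (1 - β)) :=
          ENNReal.ofReal_mul (mul_nonneg (S_nonneg ha _ _) (Real.rpow_nonneg hwrd.le _))
      _ ≤ M * ENNReal.ofReal ((1 + 2 * (d : ℝ)) ^ (1 - β)) := by
          gcongr
          exact le_iSup (fun r : ℕ => ENNReal.ofReal (S a n₀ r * w r ^ (β - 1))) (r + d)
  have hle := iSup_le hbound
  intro htop
  rw [htop, top_le_iff] at hle
  exact ENNReal.mul_ne_top hfin ENNReal.ofReal_ne_top hle

/-- Bound for the constant produced by `core`, uniform for `β` in `[β₀, 1)`. -/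
lemma const_bound {β₀ β A : ℝ} (hβ₀ : 0 < β₀) (hle : β₀ ≤ β) (h1 : β < 1) (hA : 1 ≤ A)
    {B : ℝ} (hB0 : 0 ≤ B) (hBA : B ≤ A) :
    (4 ^ (1 / (1 - β)) * (B * (2 ^ (1 / (1 - β) - 1) /
      (1 - (1 / 2 : ℝ) ^ (1 / (1 - β) - 1))))) ^ (1 / (1 / (1 - β))) ≤
      8 * A / (1 - (1 / 2 : ℝ) ^ β₀) := by
  have h1β : 0 < 1 - β := by linarith
  have h0 : 0 < β := lt_of_lt_of_le hβ₀ hle
  set q : ℝ := 1 / (1 - β) with hq
  have hq1 : 1 < q := by
    rw [hq, lt_div_iff₀ h1β]; linarith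
  have hq0 : 0 < q := by linarith
  have hqβ : β₀ ≤ q - 1 := by
    have e : q - 1 = β / (1 - β) := by rw [hq]; field_simp; ring
    rw [e, le_div_iff₀ h1β]
    nlinarith
  have hρ1 : (1 / 2 : ℝ) ^ (q - 1) < 1 :=
    Real.rpow_lt_one (by norm_num) (by norm_num) (by linarith)
  have hρ2 : (1 / 2 : ℝ) ^ β₀ < 1 := Real.rpow_lt_one (by norm_num) (by norm_num) hβ₀
  have hρ12 : (1 / 2 : ℝ) ^ (q - 1) ≤ (1 / 2 : ℝ) ^ β₀ :=
    Real.rpow_le_rpow_of_exponent_ge (by norm_num) (by norm_num) hqβ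
  have hρ3 : 0 < (1 / 2 : ℝ) ^ (q - 1) := Real.rpow_pos_of_pos (by norm_num) _
  have d1 : 0 < 1 - (1 / 2 : ℝ) ^ (q - 1) := by linarith
  have d2 : 0 < 1 - (1 / 2 : ℝ) ^ β₀ := by linarith
  have p2 : (0 : ℝ) < 2 ^ (q - 1) := Real.rpow_pos_of_pos (by norm_num) _
  have hD1 : 1 ≤ 1 / (1 - (1 / 2 : ℝ) ^ (q - 1)) := by
    rw [le_div_iff₀ d1]; linarith
  -- the four factors
  have hinv : 1 / q ≤ 1 := by rw [div_le_one hq0]; linarith
  have hinv0 : 0 < 1 / q := by positivity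
  have f1 : ((4 : ℝ) ^ q) ^ (1 / q) = 4 := by
    rw [← Real.rpow_mul (by norm_num), mul_one_div_cancel hq0.ne', Real.rpow_one]
  have f2 : B ^ (1 / q) ≤ A := by
    calc B ^ (1 / q) ≤ A ^ (1 / q) := Real.rpow_le_rpow hB0 hBA hinv0.le
      _ ≤ A ^ (1 : ℝ) := Real.rpow_le_rpow_of_exponent_le hA hinv
      _ = A := Real.rpow_one A
  have f3 : ((2 : ℝ) ^ (q - 1)) ^ (1 / q) ≤ 2 := by
    rw [← Real.rpow_mul (by norm_num)]
    calc (2 : ℝ) ^ ((q - 1) * (1 / q)) ≤ 2 ^ (1 : ℝ) := by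
          apply Real.rpow_le_rpow_of_exponent_le (by norm_num)
          rw [mul_one_div, div_le_one hq0]
          linarith
      _ = 2 := Real.rpow_one 2
  have f4 : (1 / (1 - (1 / 2 : ℝ) ^ (q - 1))) ^ (1 / q) ≤ 1 / (1 - (1 / 2 : ℝ) ^ β₀) := by
    calc (1 / (1 - (1 / 2 : ℝ) ^ (q - 1))) ^ (1 / q)
        ≤ (1 / (1 - (1 / 2 : ℝ) ^ (q - 1))) ^ (1 : ℝ) :=
          Real.rpow_le_rpow_of_exponent_le hD1 hinv
      _ = 1 / (1 - (1 / 2 : ℝ) ^ (q - 1)) := Real.rpow_one _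
      _ ≤ 1 / (1 - (1 / 2 : ℝ) ^ β₀) := one_div_le_one_div_of_le d2 (by linarith)
  have e : (4 ^ q * (B * (2 ^ (q - 1) / (1 - (1 / 2 : ℝ) ^ (q - 1))))) =
      ((4 ^ q * B) * 2 ^ (q - 1)) * (1 / (1 - (1 / 2 : ℝ) ^ (q - 1))) := by ring
  rw [e, Real.mul_rpow (by positivity) (by positivity), Real.mul_rpow (by positivity) p2.le,
    Real.mul_rpow (by positivity) hB0, f1]
  calc 4 * B ^ (1 / q) * ((2 : ℝ) ^ (q - 1)) ^ (1 / q) *
        (1 / (1 - (1 / 2 : ℝ) ^ (q - 1))) ^ (1 / q)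
      ≤ 4 * A * 2 * (1 / (1 - (1 / 2 : ℝ) ^ β₀)) := by
        have g1 : 0 ≤ B ^ (1 / q) := Real.rpow_nonneg hB0 _
        have g2 : 0 ≤ ((2 : ℝ) ^ (q - 1)) ^ (1 / q) := Real.rpow_nonneg p2.le _
        have g3 : 0 ≤ (1 / (1 - (1 / 2 : ℝ) ^ (q - 1))) ^ (1 / q) := Real.rpow_nonneg (by positivity) _
        have hA0 : 0 ≤ A := by linarith
        apply mul_le_mul _ f4 g3 (by positivity)
        apply mul_le_mul _ f3 g2 (by positivity)
        linarith
    _ = 8 * A / (1 - (1 / 2 : ℝ) ^ β₀) := by ring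

/-- **Answer to Q1 of MP_f9323a_an.**  For every `β₀ > 0` there is a finite constant `C` such that
for all `β` with `β₀ ≤ β < 1`, with `q = 1 / (1 - β)`, and every `f : ℤ → ℝ` of bounded variation
for which the discrete centered fractional maximal function is finite at some point, this maximal
function is finite at every point and its `q`-variation is at most `C` times the total variation
of `f`.  (Taking `β₀ = β` gives the statement for each fixed `0 < β < 1`.) -/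
theorem result (β₀ : ℝ) (hβ₀ : 0 < β₀) :
    ∃ C : ℝ, 0 ≤ C ∧ ∀ β : ℝ, β₀ ≤ β → β < 1 →
      ∀ f : ℤ → ℝ, totalVar f ≠ ⊤ → (∃ n, fracMax β f n ≠ ⊤) →
        (∀ n, fracMax β f n ≠ ⊤) ∧
        qVar (1 / (1 - β)) (fun n => (fracMax β f n).toReal) ≤ ENNReal.ofReal C * totalVar f := by
  -- choice of the integer K
  obtain ⟨K, hK⟩ : ∃ K : ℕ, (4 : ℝ) ^ (1 / β₀) ≤ K := exists_nat_ge _
  have h4pos : (1 : ℝ) ≤ 4 ^ (1 / β₀) := Real.one_le_rpow (by norm_num) (by positivity)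
  have hK1r : (1 : ℝ) ≤ K := le_trans h4pos hK
  have hK1 : 1 ≤ K := by exact_mod_cast hK1r
  have hKpos : (0 : ℝ) < K := by exact_mod_cast hK1
  set A : ℝ := 2 * (5 * K * (28 * K : ℝ) ^ (1 / β₀)) with hA
  have h28 : (1 : ℝ) ≤ (28 * K : ℝ) ^ (1 / β₀) := Real.one_le_rpow (by linarith) (by positivity)
  have hA1 : 1 ≤ A := by
    rw [hA]
    nlinarith
  have hρ2 : (1 / 2 : ℝ) ^ β₀ < 1 := Real.rpow_lt_one (by norm_num) (by norm_num) hβ₀
  have d2 : 0 < 1 - (1 / 2 : ℝ) ^ β₀ := by linarith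
  refine ⟨8 * A / (1 - (1 / 2 : ℝ) ^ β₀), by positivity, ?_⟩
  intro β hle h1 f hf hex
  have h0 : 0 < β := lt_of_lt_of_le hβ₀ hle
  have hK4 : 4 ≤ (K : ℝ) ^ β := by
    have h := Real.rpow_le_rpow (by positivity) hK hβ₀.le
    rw [← Real.rpow_mul (by norm_num), one_div_mul_cancel hβ₀.ne', Real.rpow_one] at h
    exact le_trans h (Real.rpow_le_rpow_of_exponent_le hK1r hle)
  have hBA : 2 * (5 * K * (28 * K : ℝ) ^ (1 / β)) ≤ A := by
    rw [hA]
    have : (28 * K : ℝ) ^ (1 / β) ≤ (28 * K : ℝ) ^ (1 / β₀) := by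
      apply Real.rpow_le_rpow_of_exponent_le (by linarith)
      exact one_div_le_one_div_of_le hβ₀ hle
    have h5 : (0 : ℝ) ≤ 5 * K := by positivity
    nlinarith [mul_le_mul_of_nonneg_left this h5]
  have hconst := const_bound hβ₀ hle h1 hA1
    (B := 2 * (5 * K * (28 * K : ℝ) ^ (1 / β))) (by positivity) hBA
  set q : ℝ := 1 / (1 - β) with hq
  have h1β : 0 < 1 - β := by linarith
  have hq1 : 1 < q := by
    rw [hq, lt_div_iff₀ h1β]; linarith
  have hq0 : 0 < q := by linarith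
  set C0 : ℝ := 4 ^ q * ((2 * (5 * K * (28 * K : ℝ) ^ (1 / β))) *
        (2 ^ (q - 1) / (1 - (1 / 2 : ℝ) ^ (q - 1)))) with hC0
  have hρ1 : (1 / 2 : ℝ) ^ (q - 1) < 1 :=
    Real.rpow_lt_one (by norm_num) (by norm_num) (by linarith)
  have hC0pos : 0 ≤ C0 := by
    have : 0 < 1 - (1 / 2 : ℝ) ^ (q - 1) := by linarith
    positivity
  obtain ⟨n₀, hn₀⟩ := hex
  have hfin : ∀ n, fracMax β f n ≠ ⊤ := fracMax_finite h1 hn₀
  refine ⟨hfin, ?_⟩
  set a : ℤ → ℝ := fun j => |f j| with hadef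
  have ha : ∀ n, 0 ≤ a n := fun n => abs_nonneg _
  set g : ℤ → ℝ := fun n => (fracMax β f n).toReal with hg
  have hub : ∀ n r, S a n r * w r ^ (β - 1) ≤ g n := by
    intro n r
    have h2 : ENNReal.ofReal (S a n r * w r ^ (β - 1)) ≤ fracMax β f n := by
      rw [fracMax_eq]
      exact le_iSup (fun r : ℕ => ENNReal.ofReal (S a n r * w r ^ (β - 1))) r
    exact (ENNReal.ofReal_le_iff_le_toReal (hfin n)).mp h2
  have hlub : ∀ n x, x < g n → ∃ r, x < S a n r * w r ^ (β - 1) := by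
    intro n x hx
    rcases lt_or_ge x 0 with hx0 | hx0
    · exact ⟨0, lt_of_lt_of_le hx0
        (mul_nonneg (S_nonneg ha _ _) (Real.rpow_nonneg (w_pos _).le _))⟩
    · have h2 : ENNReal.ofReal x < fracMax β f n :=
        (ENNReal.ofReal_lt_iff_lt_toReal hx0 (hfin n)).mpr hx
      rw [fracMax_eq, lt_iSup_iff] at h2
      obtain ⟨r, hr⟩ := h2
      exact ⟨r, (ENNReal.ofReal_lt_ofReal_iff_of_nonneg hx0).mp hr⟩
  set V : ℝ := (totalVar f).toReal with hVdef
  have hV0 : 0 ≤ V := ENNReal.toReal_nonneg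
  have hV : ∀ G : Finset ℤ, ∑ j ∈ G, |a (j + 1) - a j| ≤ V := by
    intro G
    have h2 : ∑ j ∈ G, |a (j + 1) - a j| ≤ ∑ j ∈ G, |f (j + 1) - f j| := by
      apply Finset.sum_le_sum
      intro j _
      exact abs_abs_sub_abs_le_abs_sub _ _
    refine le_trans h2 ?_
    rw [hVdef]
    have h3 : ENNReal.ofReal (∑ j ∈ G, |f (j + 1) - f j|) ≤ totalVar f := by
      rw [ENNReal.ofReal_sum_of_nonneg (fun i _ => abs_nonneg _)]
      exact ENNReal.sum_le_tsum G
    exact (ENNReal.ofReal_le_iff_le_toReal hf).mp h3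
  have hcore := core h0 h1 hq ha hK1 hK4 hub hlub hV0 hV
  have htsum : ∑' n : ℤ, ENNReal.ofReal |g (n + 1) - g n| ^ q ≤ ENNReal.ofReal (C0 * V ^ q) := by
    rw [ENNReal.tsum_eq_iSup_sum]
    apply iSup_le
    intro F
    have e : ∑ n ∈ F, ENNReal.ofReal |g (n + 1) - g n| ^ q =
        ENNReal.ofReal (∑ n ∈ F, |g (n + 1) - g n| ^ q) := by
      rw [ENNReal.ofReal_sum_of_nonneg (fun i _ => Real.rpow_nonneg (abs_nonneg _) _)]
      apply Finset.sum_congr rfl
      intro n _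
      rw [ENNReal.ofReal_rpow_of_nonneg (abs_nonneg _) hq0.le]
    rw [e]
    exact ENNReal.ofReal_le_ofReal (hcore F)
  calc qVar q g ≤ (ENNReal.ofReal (C0 * V ^ q)) ^ (1 / q) :=
        ENNReal.rpow_le_rpow htsum (by positivity)
    _ = ENNReal.ofReal (C0 ^ (1 / q)) * totalVar f := by
        rw [ENNReal.ofReal_rpow_of_nonneg (by positivity) (by positivity),
          Real.mul_rpow hC0pos (by positivity), ← Real.rpow_mul hV0,
          mul_one_div_cancel hq0.ne', Real.rpow_one,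
          ENNReal.ofReal_mul (Real.rpow_nonneg hC0pos _), hVdef, ENNReal.ofReal_toReal hf]
    _ ≤ ENNReal.ofReal (8 * A / (1 - (1 / 2 : ℝ) ^ β₀)) * totalVar f := by
        gcongr

end Pool.Agent.Results.MP_f9323a_an.CenteredVar
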